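import Pool.Agent.N436.DF.Stm

/-!
# Project DF (helper436): the improvement at an unsaturated boundary vertex (helper717)
-/

set_option autoImplicit false

namespace Pool.Agent.N717.DF

open Finset Pool.Agent.N436.DF

variable {V : Type} [DecidableEq V]

theorem rho_low_of_notMem (P : Par) (H : Hub V) (i : Bool) (x : V) (X : Finset V) (hx : x ∉ X) :
    rho P (low H i x) X = rho P H X := by
  unfold rho
  have h1 : ∑ v ∈ X, wt P (low H i x) v = ∑ v ∈ X, wt P H v := by
    refine Finset.sum_congr rfl fun v hv => ?_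
    have hvx : v ≠ x := fun h => hx (h ▸ hv)
    simp [wt, low, hvx]
  rw [h1]
  rfl

theorem k1 (hlow : S_low) (hdelr : S_delr) (haddm : S_addm) (hp : S_trPair) (hr : S_trReal)
    (hkc : S_killCol) (hkr : S_killRho) : S_K1 := by
  intro V _ P H S X f p x0 v1 hok hXS hcol hx0 hv1 hadj hload
  obtain ⟨hv1S, hv1X⟩ := Finset.mem_sdiff.1 hv1
  have hne : x0 ≠ v1 := fun h => hv1X (h ▸ hx0)
  have hx0S : x0 ∈ S := hXS hx0
  obtain ⟨l1, l2, l3, -, l5⟩ := hlow V P H (f x0) x0 hok
  have c1 : ColBy (low H (f x0) x0) X f p := l5 X f p hcol fun _ _ => hload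
  have hdisj : ∀ Y, Y ⊆ S \ X → Disjoint Y X := fun Y hY =>
    Finset.disjoint_left.2 fun y hy hyX => (Finset.mem_sdiff.1 (hY hy)).2 hyX
  rcases hadj with hadj | hadj
  · -- real edge
    obtain ⟨m1, m2, -, -, m5⟩ := hlow V P (low H (f x0) x0) (f x0) v1 l1
    have c2 : ColBy (low (low H (f x0) x0) (f x0) v1) X f p :=
      m5 X f p c1 fun h => absurd h hv1X
    obtain ⟨d1, d2, -, -, d5⟩ := hdelr V P (low (low H (f x0) x0) (f x0) v1) x0 v1 m1 hadj
    have c3 := d5 X f p hv1X c2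
    obtain ⟨e1, e2, e3, -⟩ := hkr V P (delr (low (low H (f x0) x0) (f x0) v1) x0 v1) X f d1
    refine ⟨kill (delr (low (low H (f x0) x0) (f x0) v1) x0 v1) X f, e1, ?_, ?_, ?_⟩
    · intro u hu v hv
      have hu' : u ≠ x0 := fun h => (Finset.mem_sdiff.1 hu).2 (h ▸ hx0)
      have hv' : v ≠ x0 := fun h => (Finset.mem_sdiff.1 hv).2 (h ▸ hx0)
      simp [kill, delr, low, hu', hv']
    · intro h
      obtain ⟨f', p', g1, g2⟩ := hkc V P _ S X f p d1 hXS c3 h
      exact ⟨f', p', hr V P H S (f x0) x0 v1 f' p' hok hx0S hv1S hadj (g2 x0 hx0) g1⟩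
    · intro Y hY
      have hdis := hdisj Y hY
      rw [e2 Y hdis, d2, d2]
      have hs : 0 ≤ ∑ v ∈ Y, sav P (delr (low (low H (f x0) x0) (f x0) v1) x0 v1) X f v :=
        Finset.sum_nonneg fun v _ => (e3 v).2.2.2.2.2
      have h1 := m2 (Y ∪ X)
      have h2 := l3 X (Y ∪ X) hx0 Finset.subset_union_right
      have h3 := rho_low_of_notMem P (low H (f x0) x0) (f x0) v1 X hv1X
      have hk : kap P (f x0) ≤ P.a := by
        unfold kap
        have := P.hab
        have := P.hd
        split_ifs <;> linarith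
      have hD := P.hDa
      by_cases hvY : v1 ∈ Y
      · rw [if_pos hvY, if_pos ⟨Finset.mem_union_right _ hx0, Finset.mem_union_left _ hvY⟩,
          if_neg (fun h => hv1X h.2)]
        rw [if_pos (Finset.mem_union_left _ hvY)] at h1
        linarith
      · have hvYX : v1 ∉ Y ∪ X := fun h => (Finset.mem_union.1 h).elim hvY hv1X
        rw [if_neg hvY, if_neg (fun h => hvYX h.2), if_neg (fun h => hv1X h.2)]
        rw [if_neg hvYX] at h1
        linarith
  · -- pair edge
    have hm : 0 ≤ (low H (f x0) x0).m x0 v1 + (-1) := by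
      have : (low H (f x0) x0).m x0 v1 = H.m x0 v1 := rfl
      rw [this]
      linarith
    obtain ⟨d1, d2, -, d5⟩ := haddm V P (low H (f x0) x0) (-1) x0 v1 l1 hne hm
    have c3 := d5 X f p hv1X c1
    obtain ⟨e1, e2, e3, -⟩ := hkr V P (addm (low H (f x0) x0) (-1) x0 v1) X f d1
    refine ⟨kill (addm (low H (f x0) x0) (-1) x0 v1) X f, e1, fun u _ v _ => rfl, ?_, ?_⟩
    · intro h
      obtain ⟨f', p', g1, g2⟩ := hkc V P _ S X f p d1 hXS c3 h
      obtain ⟨p'', g3⟩ := hp V P H S (f x0) x0 v1 f' p' hok hx0S hv1S hne (g2 x0 hx0) g1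
      exact ⟨f', p'', g3⟩
    · intro Y hY
      have hdis := hdisj Y hY
      rw [e2 Y hdis, d2, d2]
      have hs : 0 ≤ ∑ v ∈ Y, sav P (addm (low H (f x0) x0) (-1) x0 v1) X f v :=
        Finset.sum_nonneg fun v _ => (e3 v).2.2.2.2.2
      have h2 := l3 X (Y ∪ X) hx0 Finset.subset_union_right
      by_cases hvY : v1 ∈ Y
      · rw [if_pos hvY, if_pos ⟨Finset.mem_union_right _ hx0, Finset.mem_union_left _ hvY⟩,
          if_neg (fun h => hv1X h.2)]
        linarith
      · have hvYX : v1 ∉ Y ∪ X := fun h => (Finset.mem_union.1 h).elim hvY hv1X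
        rw [if_neg hvY, if_neg (fun h => hvYX h.2), if_neg (fun h => hv1X h.2)]
        linarith

end Pool.Agent.N717.DF
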